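import Pool.Agent.P.MP_11b517_an.Gap.Defs

/-! Enough uniquely ergodic models give spectral gap. -/

set_option autoImplicit false
set_option linter.unusedSectionVars false

open MeasureTheory Set Filter Topology
open scoped ENNReal NNReal BoundedContinuousFunction

namespace Pool.Agent.P.MP_11b517_an.Gap

namespace Conv

variable {G O : Type} [Group G] [MeasurableSpace O] [MulAction G O] {μ : Measure O}
  [IsProbabilityMeasure μ] {f p q : O → ℝ}

theorem int (h : BddMeas f) : Integrable f μ := by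
  obtain ⟨h1, B, h2⟩ := h
  exact Integrable.of_bound h1.aestronglyMeasurable B (Eventually.of_forall h2)

theorem const (c : ℝ) : BddMeas fun _ : O => c := ⟨measurable_const, |c|, fun _ => le_rfl⟩

theorem mul (h : BddMeas f) (k : BddMeas p) : BddMeas fun w => f w * p w := by
  obtain ⟨h1, B, h2⟩ := h
  obtain ⟨k1, C, k2⟩ := k
  exact ⟨h1.mul k1, B * C, fun w => abs_mul (f w) (p w) ▸
    mul_le_mul (h2 w) (k2 w) (abs_nonneg _) ((abs_nonneg _).trans (h2 w))⟩

theorem add (h : BddMeas f) (k : BddMeas p) : BddMeas fun w => f w + p w := by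
  obtain ⟨h1, B, h2⟩ := h
  obtain ⟨k1, C, k2⟩ := k
  exact ⟨h1.add k1, B + C, fun w => (abs_add_le _ _).trans (add_le_add (h2 w) (k2 w))⟩

theorem sub (h : BddMeas f) (k : BddMeas p) : BddMeas fun w => f w - p w := by
  simpa [sub_eq_add_neg] using add h (mul (const (-1)) k)

theorem ab (h : BddMeas f) : BddMeas fun w => |f w| :=
  ⟨h.1.abs, by simpa using h.2⟩

theorem sq (h : BddMeas f) : BddMeas fun w => f w ^ 2 := by simpa [pow_two] using mul h h

theorem comp (h : BddMeas f) {T : O → O} (hT : Measurable T) : BddMeas fun w => f (T w) :=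
  ⟨h.1.comp hT, h.2.imp fun _ k _ => k _⟩

theorem icomp (h : BddMeas f) {T : O → O} (hT : MeasurePreserving T μ μ) :
    ∫ w, f (T w) ∂μ = ∫ w, f w ∂μ := by
  rw [← integral_map hT.aemeasurable h.1.aestronglyMeasurable, hT.map_eq]

/-- A probability density that is almost invariant under the first `n` group elements. -/
def Inv (μ : Measure O) (e : ℕ → G) (n : ℕ) (p : O → ℝ) : Prop :=
  BddMeas p ∧ (∀ w, 0 ≤ p w) ∧ ∫ w, p w ∂μ = 1 ∧
    ∀ i < n, ∫ w, |p (e i • w) - p w| ∂μ ≤ 1 / (n + 1 : ℝ)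

theorem Inv.mono {e : ℕ → G} {m n : ℕ} (h : Inv μ e m p) (k : n ≤ m) : Inv μ e n p :=
  ⟨h.1, h.2.1, h.2.2.1, fun i hi => (h.2.2.2 i (hi.trans_le k)).trans (Nat.one_div_le_one_div k)⟩

theorem weak (hmp : ∀ g : G, MeasurePreserving (fun w : O => g • w) μ μ) {e : ℕ → G}
    (he : Function.Surjective e) (H : HasUEModel G μ fun _ => f) {ε : ℝ}
    (hε : 0 < ε) : ∃ n, ∀ p, Inv μ e n p → |∫ w, f w * p w ∂μ - ∫ w, f w ∂μ| ≤ ε := by
  by_contra hc
  push Not at hc
  choose p hp hne using hc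
  obtain ⟨X, _, _, _, _, _, _, hcont, ν, _, -, hu, φ, ψ, hφ, -, hm, heq, -, -, hh⟩ := H
  obtain ⟨h, h1, h2⟩ := hh 0
  have key : ∀ n (k : O → ℝ), ∫ w, k w ∂μ.withDensity (fun w => ENNReal.ofReal (p n w)) =
      ∫ w, k w * p n w ∂μ := fun n k => by
    rw [integral_withDensity_eq_integral_toReal_smul (hp n).1.1.ennreal_ofReal (by simp)]
    simp only [ENNReal.toReal_ofReal ((hp n).2.1 _), smul_eq_mul, mul_comm]
  have pr : ∀ n, IsProbabilityMeasure (μ.withDensity fun w => ENNReal.ofReal (p n w)) := fun n =>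
    ⟨by rw [withDensity_apply _ MeasurableSet.univ, Measure.restrict_univ,
      ← ofReal_integral_eq_lintegral_ofReal (int (hp n).1) (Eventually.of_forall (hp n).2.1),
      (hp n).2.2.1, ENNReal.ofReal_one]⟩
  let P : ℕ → ProbabilityMeasure X := fun n =>
    ⟨(μ.withDensity fun w => ENNReal.ofReal (p n w)).map φ,
      Measure.isProbabilityMeasure_map hφ.aemeasurable⟩
  let U : Ultrafilter ℕ := Ultrafilter.of atTop
  have hU : (U : Filter ℕ) ≤ atTop := Ultrafilter.of_le _
  obtain ⟨ν', -, hν'⟩ := isCompact_univ.ultrafilter_le_nhds (U.map P) (by simp)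
  have lim : ∀ k : X → ℝ, Continuous k → Tendsto (fun n => ∫ w, k (φ w) * p n w ∂μ) U
      (𝓝 (∫ x, k x ∂(ν' : Measure X))) := fun k hk => by
    refine (ProbabilityMeasure.tendsto_iff_forall_integral_tendsto.1 (show Tendsto P U _ from hν')
      (BoundedContinuousFunction.mkOfCompact ⟨k, hk⟩)).congr fun n => ?_
    rw [← key]
    exact integral_map hφ.aemeasurable hk.aestronglyMeasurable
  have inv : ∀ g : G, Measure.map (fun x : X => g • x) (ν' : Measure X) = ν' := fun g => by
    have := Measure.isProbabilityMeasure_map (μ := (ν' : Measure X))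
      (hcont g).measurable.aemeasurable
    refine ext_of_forall_integral_eq_of_IsFiniteMeasure fun k => ?_
    rw [integral_map (hcont g).measurable.aemeasurable k.continuous.aestronglyMeasurable]
    obtain ⟨i, rfl⟩ := he g
    have kb : BddMeas fun w => k (φ w) :=
      ⟨k.continuous.measurable.comp hφ, ‖k‖, fun w => k.norm_coe_le_norm _⟩
    have m := (hmp (e i)).measurable
    have l := (lim _ (k.continuous.comp (hcont (e i)))).sub (lim k k.continuous)
    refine sub_eq_zero.1 (tendsto_nhds_unique l (squeeze_zero_norm' ?_ (by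
      simpa using (tendsto_one_div_add_atTop_nhds_zero_nat.const_mul ‖k‖).mono_left hU)))
    filter_upwards [hU (eventually_gt_atTop i)] with n hn
    have e1 : ∫ w, (k ∘ fun x => e i • x) (φ w) * p n w ∂μ = ∫ w, k (φ (e i • w)) * p n w ∂μ :=
      integral_congr_ae (by filter_upwards [heq (e i)] with w hw; simp [hw])
    rw [e1, ← icomp (mul kb (hp n).1) (hmp (e i)), ← integral_sub (int (mul (comp kb m) (hp n).1))
      (int (comp (mul kb (hp n).1) m))]
    refine (norm_integral_le_of_norm_le ((int (ab (sub (comp (hp n).1 m) (hp n).1))).const_mul ‖k‖)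
      (Eventually.of_forall fun w => ?_)).trans ?_
    · rw [← mul_sub, norm_mul, Real.norm_eq_abs (_ - _), abs_sub_comm]
      exact mul_le_mul_of_nonneg_right (k.norm_coe_le_norm _) (abs_nonneg _)
    · rw [integral_const_mul, ← div_eq_mul_inv, ← mul_one_div]
      exact mul_le_mul_of_nonneg_left ((hp n).2.2.2 i hn) (norm_nonneg _)
  have l := lim h h1
  rw [hu _ inferInstance inv, ← hm, integral_map hφ.aemeasurable h1.aestronglyMeasurable,
    integral_congr_ae h2] at l
  have l2 := ge_of_tendsto' ((l.sub_const (∫ w, f w ∂μ)).abs) (b := ε) fun n => by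
    rw [integral_congr_ae (g := fun w => f w * p n w) (by filter_upwards [h2] with w hw; rw [hw])]
    exact (hne n).le
  simp only [sub_self, abs_zero] at l2
  exact absurd hε l2.not_gt

theorem norm {e : ℕ → G} {n : ℕ} (hp : BddMeas p) (h0 : ∀ w, 0 ≤ p w) {a : ℝ} (ha : 0 < a)
    (h1 : ∫ w, p w ∂μ = a) (h2 : ∀ i < n, ∫ w, |p (e i • w) - p w| ∂μ ≤ a * (1 / (n + 1 : ℝ))) :
    Inv μ e n fun w => a⁻¹ * p w := by
  refine ⟨mul (const _) hp, fun w => mul_nonneg (inv_pos.2 ha).le (h0 w),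
    by rw [integral_const_mul, h1, inv_mul_cancel₀ ha.ne'], fun i hi => ?_⟩
  simp only [← mul_sub, abs_mul, abs_of_pos (inv_pos.2 ha), integral_const_mul]
  exact (inv_mul_le_iff₀ ha).2 (h2 i hi)

theorem pos (hmp : ∀ g : G, MeasurePreserving (fun w : O => g • w) μ μ) {e : ℕ → G} {n : ℕ}
    (hp : BddMeas p) {a : ℝ} (ha : 0 < a) (h0 : ∫ w, p w ∂μ = 0) (h1 : ∫ w, |p w| ∂μ = 2 * a)
    (h2 : ∀ i < n, ∫ w, |p (e i • w) - p w| ∂μ ≤ a * (1 / (n + 1 : ℝ))) :
    Inv μ e n fun w => a⁻¹ * max (p w) 0 := by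
  have e1 : ∀ w, max (p w) 0 = 2⁻¹ * (|p w| + p w) := fun w => by
    rcases le_total (p w) 0 with k | k
    · simp [k, abs_of_nonpos k]
    · rw [max_eq_left k, abs_of_nonneg k]; ring
  have hm : BddMeas fun w => max (p w) 0 := by
    simpa only [e1] using mul (const _) (add (ab hp) hp)
  refine norm hm (fun w => le_max_right _ _) ha ?_ fun i hi => (integral_mono
    (int (ab (sub (comp hm (hmp _).measurable) hm))) (int (ab (sub (comp hp (hmp _).measurable) hp)))
      fun w => abs_max_sub_max_le_abs _ _ _).trans (h2 i hi)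
  simp only [e1]
  rw [integral_const_mul, integral_add (int (ab hp)) (int hp), h0, h1]
  ring

theorem ssq (x y l : ℝ) (hl : 0 < l) :
    abs (x * |x| - y * |y|) ≤ (x - y) ^ 2 / (2 * l) + l * (x ^ 2 + y ^ 2) := by
  have h1 : abs (x * |x| - y * |y|) ≤ |x - y| * (|x| + |y|) := by
    rw [show x * |x| - y * |y| = (x - y) * |x| + y * (|x| - |y|) by ring, mul_add]
    refine (abs_add_le _ _).trans (add_le_add (by simp [abs_mul]) ?_)
    rw [abs_mul, mul_comm]
    exact mul_le_mul_of_nonneg_right (abs_abs_sub_abs_le _ _) (abs_nonneg _)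
  refine h1.trans ?_
  rw [← sq_abs (x - y), ← sq_abs x, ← sq_abs y, div_add' _ _ _ (by positivity),
    le_div_iff₀ (by positivity)]
  nlinarith [sq_nonneg (|x - y| - l * (|x| + |y|)), sq_nonneg (l * (|x| - |y|))]

theorem split (hmp : ∀ g : G, MeasurePreserving (fun w : O => g • w) μ μ) (e : ℕ → G)
    (hg : ¬SpectralGap G μ) (n : ℕ) :
    ∃ q q', Inv μ e n q ∧ Inv μ e n q' ∧ ∀ w, q w = 0 ∨ q' w = 0 := by
  classical
  unfold SpectralGap at hg
  push Not at hg
  obtain ⟨u, hu, h⟩ := hg ((Finset.range n).image e) (16 * (n + 1) ^ 2)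
  obtain ⟨B, hB⟩ := hu.2
  have hc : ∀ c, BddMeas fun w => u w - c := fun c => sub hu (const c)
  obtain ⟨c, -, h0⟩ : (0 : ℝ) ∈ (fun c => ∫ w, (u w - c) * |u w - c| ∂μ) '' Icc (-|B|) |B| := by
    refine intermediate_value_Icc' (neg_le_self (abs_nonneg B)) ?_ ⟨?_, ?_⟩
    · refine continuousOn_of_dominated (bound := fun _ => (2 * |B|) ^ 2)
        (fun c _ => (mul (hc c) (ab (hc c))).1.aestronglyMeasurable)
        (fun c k => Eventually.of_forall fun w => ?_) (integrable_const _)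
        (Eventually.of_forall fun w => by fun_prop)
      rw [Real.norm_eq_abs, abs_mul, abs_abs, ← pow_two]
      refine pow_le_pow_left₀ (abs_nonneg _) ((abs_sub _ _).trans ?_) 2
      linarith [hB w, le_abs_self B, abs_le.2 k]
    · exact integral_nonpos fun w => mul_nonpos_of_nonpos_of_nonneg
        (by linarith [hB w, le_abs_self B, le_abs_self (u w)]) (abs_nonneg _)
    · exact integral_nonneg fun w => mul_nonneg
        (by linarith [hB w, le_abs_self B, neg_abs_le (u w)]) (abs_nonneg _)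
  have hv := hc c
  have e0 : ∀ g : G, ∫ w, (u (g • w) - u w) ^ 2 ∂μ = ∫ w, (u (g • w) - c - (u w - c)) ^ 2 ∂μ :=
    fun g => by simp
  have e1 : ∫ w, (u w - ∫ x, u x ∂μ) ^ 2 ∂μ ≤ ∫ w, (u w - c) ^ 2 ∂μ := by
    generalize hm : ∫ x, u x ∂μ = m
    have : ∫ w, (u w - m) ^ 2 + 2 * (m - c) * (u w - m) ∂μ = ∫ w, (u w - m) ^ 2 ∂μ := by
      rw [integral_add (int (sq (hc m))) ((int (hc m)).const_mul _), integral_const_mul,
        integral_sub (int hu) (integrable_const _), hm]
      simp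
    rw [← this]
    exact integral_mono ((int (sq (hc m))).add ((int (hc m)).const_mul _)) (int (sq hv))
      fun w => by nlinarith [sq_nonneg (m - c)]
  replace h := h.trans_le e1
  simp only [e0] at h
  simp only at h0
  obtain ⟨v, hv', ev⟩ : ∃ v : O → ℝ, BddMeas v ∧ ∀ w, u w - c = v w := ⟨_, hv, fun _ => rfl⟩
  simp only [ev] at h h0
  have nn : ∀ s ∈ (Finset.range n).image e, 0 ≤ ∫ w, (v (s • w) - v w) ^ 2 ∂μ := fun s _ =>
    integral_nonneg fun w => sq_nonneg _
  have N0 : 0 < ∫ w, v w ^ 2 ∂μ :=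
    (mul_nonneg (by positivity) (Finset.sum_nonneg nn)).trans_lt h
  have hp := mul hv' (ab hv')
  have h1 : ∫ w, abs (v w * |v w|) ∂μ = 2 * ((∫ w, v w ^ 2 ∂μ) / 2) := by
    simp only [abs_mul, abs_abs, ← pow_two, sq_abs]; ring
  have h2 : ∀ i < n, ∫ w, abs (v (e i • w) * |v (e i • w)| - v w * |v w|) ∂μ ≤
      (∫ w, v w ^ 2 ∂μ) / 2 * (1 / (n + 1 : ℝ)) := fun i hi => by
    have m := (hmp (e i)).measurable
    have k1 := int (μ := μ) (sq (sub (comp hv' m) hv'))
    have k2 := int (μ := μ) (sq (comp hv' m))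
    have k3 := int (μ := μ) (sq hv')
    have k4 := Finset.single_le_sum nn (Finset.mem_image_of_mem e (Finset.mem_range.2 hi))
    refine (integral_mono (int (ab (sub (comp hp m) hp))) ((k1.div_const _).add
      ((k2.add k3).const_mul _)) fun w => ssq _ _ (1 / (8 * (n + 1))) (by positivity)).trans ?_
    rw [integral_add' (k1.div_const _) ((k2.add k3).const_mul _), integral_div, integral_const_mul,
      integral_add' k2 k3, icomp (sq hv') (hmp (e i))]
    have k5 := (mul_le_mul_of_nonneg_left k4 (by positivity)).trans h.le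
    generalize ∫ w, (v (e i • w) - v w) ^ 2 ∂μ = E at k5
    generalize ∫ w, v w ^ 2 ∂μ = N at k5
    field_simp
    linarith
  refine ⟨_, _, pos hmp hp (half_pos N0) h0 h1 h2, pos hmp (p := fun w => -(v w * |v w|))
    (by simpa using mul (const (-1)) hp) (half_pos N0) (by rw [integral_neg, h0, neg_zero])
    (by simpa only [abs_neg] using h1) fun i hi => by
      simpa only [neg_sub_neg, abs_sub_comm] using h2 i hi, fun w => ?_⟩
  rcases le_total (v w * |v w|) 0 with k | k
  · exact .inl (by rw [max_eq_right k, mul_zero])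
  · exact .inr (by rw [max_eq_right (neg_nonpos.2 k), mul_zero])

theorem half (hmp : ∀ g : G, MeasurePreserving (fun w : O => g • w) μ μ) {e : ℕ → G}
    (W : ∀ f, BddMeas f → ∀ ε : ℝ, 0 < ε →
      ∃ n, ∀ p, Inv μ e n p → |∫ w, f w * p w ∂μ - ∫ w, f w ∂μ| ≤ ε)
    (hg : ¬SpectralGap G μ) {δ : ℝ≥0∞} (h : ∀ n, ∃ p, Inv μ e n p ∧ μ {w | p w ≠ 0} ≤ δ) (n : ℕ) :
    ∃ p, Inv μ e n p ∧ μ {w | p w ≠ 0} ≤ δ / 2 := by
  obtain ⟨p, hp, hδ⟩ := h (8 * n + 7)
  obtain ⟨B, hB⟩ := hp.1.2
  have bd : ∀ i, BddMeas fun w => |p (e i • w) - p w| := fun i =>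
    ab (sub (comp hp.1 (hmp _).measurable) hp.1)
  obtain ⟨m₀, h0⟩ := W p hp.1 (1 / 2) (by norm_num)
  choose m hm using fun i => W _ (bd i) (1 / (8 * (n + 1))) (by positivity)
  obtain ⟨k, hk⟩ := exists_nat_ge (8 * (n + 1) * B)
  obtain ⟨M, M0, M1, M2, M3⟩ : ∃ M, m₀ ≤ M ∧ k ≤ M ∧ n ≤ M ∧ ∀ i < n, m i ≤ M :=
    ⟨m₀ + k + n + ∑ i ∈ Finset.range n, m i, by omega, by omega, by omega, fun i hi =>
      (Finset.single_le_sum (fun _ _ => Nat.zero_le _) (Finset.mem_range.2 hi)).trans (by omega)⟩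
  have main : ∀ q, Inv μ e M q →
      Inv μ e n fun w => (∫ w, p w * q w ∂μ)⁻¹ * (p w * q w) := fun q hq => by
    have a1 : 1 / 2 ≤ ∫ w, p w * q w ∂μ := by
      have := (abs_le.1 (h0 q (hq.mono M0))).1
      rw [hp.2.2.1] at this
      linarith
    refine norm (mul hp.1 hq.1) (fun w => mul_nonneg (hp.2.1 w) (hq.2.1 w)) (by linarith) rfl
      fun i hi => ?_
    have ms := (hmp (e i)).measurable
    have k1 := int (μ := μ) (mul (bd i) hq.1)
    have k2 := (int (μ := μ) (ab (sub (comp hq.1 ms) hq.1))).const_mul B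
    have B0 : ∀ w : O, 0 ≤ B := fun w => (abs_nonneg _).trans (hB w)
    refine (integral_mono (int (ab (sub (comp (mul hp.1 hq.1) ms) (mul hp.1 hq.1)))) (k1.add k2)
      fun w => ?_).trans ?_
    · show _ ≤ |p (e i • w) - p w| * q w + B * |q (e i • w) - q w|
      rw [show p (e i • w) * q (e i • w) - p w * q w = (p (e i • w) - p w) * q w +
        p (e i • w) * (q (e i • w) - q w) by ring]
      refine (abs_add_le _ _).trans (add_le_add ?_ ?_)
      · rw [abs_mul, abs_of_nonneg (hq.2.1 w)]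
      · rw [abs_mul]; exact mul_le_mul_of_nonneg_right (hB _) (abs_nonneg _)
    have a2 := (abs_le.1 (hm i q (hq.mono (M3 i hi)))).2
    have a3 := hp.2.2.2 i (by omega)
    have a4 := hq.2.2.2 i (by omega)
    have a5 : B * ∫ w, |q (e i • w) - q w| ∂μ ≤ 1 / (8 * (n + 1)) := by
      have : (k : ℝ) ≤ M := by exact_mod_cast M1
      obtain ⟨w⟩ := nonempty_of_isProbabilityMeasure μ
      refine (mul_le_mul_of_nonneg_left a4 (B0 w)).trans ?_
      rw [mul_one_div, div_le_div_iff₀ (by positivity) (by positivity)]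
      linarith
    have a6 : (1 : ℝ) / (n + 1) = 8 * (1 / (8 * (n + 1))) := by field_simp
    have a7 : (1 : ℝ) / (((8 * n + 7 : ℕ) : ℝ) + 1) = 1 / (8 * (n + 1)) := by push_cast; ring
    have a8 : (0 : ℝ) < 1 / (8 * (n + 1)) := by positivity
    rw [integral_add' k1 k2, integral_const_mul, a6]
    rw [a7] at a3
    nlinarith
  obtain ⟨q, q', hq, hq', hd⟩ := split hmp e hg M
  have ms : MeasurableSet {w | q w ≠ 0} := (measurableSet_eq_fun hq.1.1 measurable_const).compl
  by_contra hc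
  push Not at hc
  have a1 := (hc _ (main q hq)).trans_le (measure_mono (t := {w | p w ≠ 0} ∩ {w | q w ≠ 0})
    fun w hw => mul_ne_zero_iff.1 (right_ne_zero_of_mul hw))
  have a2 := (hc _ (main q' hq')).trans_le (measure_mono (t := {w | p w ≠ 0} \ {w | q w ≠ 0})
    fun w hw => ⟨(mul_ne_zero_iff.1 (right_ne_zero_of_mul hw)).1, fun k =>
      (hd w).elim k (mul_ne_zero_iff.1 (right_ne_zero_of_mul hw)).2⟩)
  have := ENNReal.add_lt_add a1 a2
  rw [measure_inter_add_sdiff _ ms, ENNReal.add_halves] at this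
  exact absurd hδ this.not_ge

end Conv

open Conv in
theorem gap_of_models {G O : Type} [Group G] [Countable G] [MeasurableSpace O] [MulAction G O]
    (mu : Measure O) [IsProbabilityMeasure mu]
    (hmp : ∀ g : G, MeasurePreserving (fun w : O => g • w) mu mu)
    (H : ∀ f : O → ℝ, BddMeas f → HasUEModel G mu (fun _ => f)) : SpectralGap G mu := by
  classical
  by_contra hg
  obtain ⟨e, he⟩ := exists_surjective_nat G
  have W := fun f hf (ε : ℝ) (hε : 0 < ε) => weak hmp he (H f hf) hε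
  have h1 : ∀ j n : ℕ, ∃ p, Inv mu e n p ∧ mu {w | p w ≠ 0} ≤ 2⁻¹ ^ j := fun j => by
    induction j with
    | zero =>
      exact fun n => ⟨fun _ => 1, ⟨const 1, fun _ => zero_le_one, by simp, fun i _ => by
        simp; positivity⟩, by simp⟩
    | succ j ih => exact fun n => pow_succ (2⁻¹ : ℝ≥0∞) j ▸ half hmp W hg ih n
  obtain ⟨d, d0, hd⟩ := ENNReal.exists_pos_sum_of_countable (ε := 2⁻¹) (by simp) ℕ
  choose j hj using fun n => ENNReal.exists_inv_two_pow_lt (a := d n) (by simpa using (d0 n).ne')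
  choose p hp hs using fun n => h1 (j n) n
  have ms : MeasurableSet (⋃ n, {w | p n w ≠ 0}) := MeasurableSet.iUnion fun n =>
    (measurableSet_eq_fun (hp n).1.1 measurable_const).compl
  have a1 : mu.real (⋃ n, {w | p n w ≠ 0}) ≤ 2⁻¹ := by
    simpa [Measure.real] using ENNReal.toReal_mono (by simp) (((measure_iUnion_le _).trans
      (ENNReal.tsum_le_tsum fun n => (hs n).trans (hj n).le)).trans hd.le)
  obtain ⟨n, hn⟩ := W ((⋃ n, {w | p n w ≠ 0}).indicator 1) ⟨measurable_one.indicator ms, 1,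
    fun w => by by_cases k : w ∈ ⋃ n, {w | p n w ≠ 0} <;> simp [k]⟩ (1 / 4) (by norm_num)
  have a2 := (abs_le.1 (hn _ (hp n))).2
  have e1 : ∀ w, (⋃ n, {w | p n w ≠ 0}).indicator (1 : O → ℝ) w * p n w = p n w := fun w => by
    by_cases k : p n w = 0
    · rw [k, mul_zero]
    · rw [indicator_of_mem (mem_iUnion.2 ⟨n, k⟩), Pi.one_apply, one_mul]
  simp only [e1] at a2
  rw [(hp n).2.2.1, integral_indicator_one ms] at a2
  linarith

end Pool.Agent.P.MP_11b517_an.Gap
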