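import Mathlib

/-! Spectral gap and uniquely ergodic models. -/

set_option autoImplicit false

open MeasureTheory

namespace Pool.Agent.P.MP_11b517_an.Gap

/-- A bounded measurable real function. -/
def BddMeas {Ω : Type} [MeasurableSpace Ω] (f : Ω → ℝ) : Prop :=
  Measurable f ∧ ∃ B : ℝ, ∀ ω, |f ω| ≤ B

/-- The action of `G` on `(Ω, μ)` has spectral gap. -/
def SpectralGap (G : Type) [Group G] {Ω : Type} [MeasurableSpace Ω] [MulAction G Ω]
    (μ : Measure Ω) : Prop :=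
  ∃ (S : Finset G) (C : ℝ), ∀ u : Ω → ℝ, BddMeas u →
    ∫ ω, (u ω - ∫ x, u x ∂μ) ^ 2 ∂μ ≤ C * ∑ s ∈ S, ∫ ω, (u (s • ω) - u ω) ^ 2 ∂μ

/-- The action of `G` on `(Ω, μ)` has a uniquely ergodic topological model on which every `f n`
is almost everywhere equal to a continuous function. -/
def HasUEModel (G : Type) [Group G] {Ω : Type} [MeasurableSpace Ω] [MulAction G Ω]
    (μ : Measure Ω) (f : ℕ → Ω → ℝ) : Prop :=
  ∃ (X : Type) (_ : TopologicalSpace X) (_ : MeasurableSpace X) (_ : MulAction G X),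
    BorelSpace X ∧ CompactSpace X ∧ TopologicalSpace.MetrizableSpace X ∧
    (∀ g : G, Continuous (fun x : X => g • x)) ∧
    ∃ ν : Measure X, IsProbabilityMeasure ν ∧
      (∀ g : G, Measure.map (fun x : X => g • x) ν = ν) ∧
      (∀ ν' : Measure X, IsProbabilityMeasure ν' →
          (∀ g : G, Measure.map (fun x : X => g • x) ν' = ν') → ν' = ν) ∧
      ∃ (φ : Ω → X) (ψ : X → Ω), Measurable φ ∧ Measurable ψ ∧
        Measure.map φ μ = ν ∧
        (∀ g : G, ∀ᵐ ω ∂μ, φ (g • ω) = g • φ ω) ∧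
        (∀ᵐ ω ∂μ, ψ (φ ω) = ω) ∧
        (∀ᵐ x ∂ν, φ (ψ x) = x) ∧
        ∀ n, ∃ h : X → ℝ, Continuous h ∧ ∀ᵐ ω ∂μ, h (φ ω) = f n ω

end Pool.Agent.P.MP_11b517_an.Gap
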