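import Pool.Agent.P.MP_11b517_an.Gap.Wit

/-! The uniquely ergodic model built from a countable algebra of terms. -/

set_option autoImplicit false

open MeasureTheory Set Filter Function Topology
open scoped ENNReal BoundedContinuousFunction

namespace Pool.Agent.P.MP_11b517_an.Gap

/-- Terms. -/
inductive Tm (G : Type) : Type
  | base : ℕ → Tm G
  | one : Tm G
  | neg : Tm G → Tm G
  | mul : Tm G → Tm G → Tm G
  | tr : G → Tm G → Tm G
  | wit : Tm G → ℕ → G → Tm G

variable {G Ω : Type}

/-- Codes of terms. -/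
def Tm.enc (e : G → ℕ) : Tm G → ℕ
  | .base n => Nat.pair 0 n
  | .one => Nat.pair 1 0
  | .neg t => Nat.pair 2 (t.enc e)
  | .mul t u => Nat.pair 3 (Nat.pair (t.enc e) (u.enc e))
  | .tr a t => Nat.pair 4 (Nat.pair (e a) (t.enc e))
  | .wit t k s => Nat.pair 5 (Nat.pair (t.enc e) (Nat.pair k (e s)))

lemma Tm.enc_inj {e : G → ℕ} (he : Injective e) : Injective (Tm.enc e) := by
  intro t
  induction t with
  | base n => intro u h; cases u <;> simp_all [Tm.enc]
  | one => intro u h; cases u <;> simp_all [Tm.enc]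
  | neg t ih =>
    intro u h
    cases u <;> simp only [Tm.enc, Nat.pair_eq_pair] at h <;> try omega
    rw [ih h.2]
  | mul t t' ih ih' =>
    intro u h
    cases u <;> simp only [Tm.enc, Nat.pair_eq_pair] at h <;> try omega
    rw [ih h.2.1, ih' h.2.2]
  | tr a t ih =>
    intro u h
    cases u <;> simp only [Tm.enc, Nat.pair_eq_pair] at h <;> try omega
    rw [ih h.2.2, he h.2.1]
  | wit t k s ih =>
    intro u h
    cases u <;> simp only [Tm.enc, Nat.pair_eq_pair] at h <;> try omega
    rw [ih h.2.1, h.2.2.1, he h.2.2.2]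

instance [Countable G] : Countable (Tm G) := by
  obtain ⟨e, he⟩ := exists_injective_nat G
  exact (Tm.enc_inj he).countable

variable [Group G]

/-- Values of terms. -/
def ev [MulAction G Ω] (b : ℕ → Ω → ℝ) (W : (Ω → ℝ) → ℕ → G → Ω → ℝ) : Tm G → Ω → ℝ
  | .base n => b n
  | .one => fun _ => 1
  | .neg t => fun ω => -ev b W t ω
  | .mul t u => fun ω => ev b W t ω * ev b W u ω
  | .tr a t => fun ω => ev b W t (a⁻¹ • ω)
  | .wit t k s => W (ev b W t) k s

/-- The closed relations that cut out the model. -/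
def Good (S : Finset G) (M : ℕ → ℝ) (E : Tm G → ℝ) (y : G × Tm G → ℝ) : Prop :=
  ∀ a : G, (∀ t, |y (a, t)| ≤ 1) ∧ y (a, .one) = 1 ∧ (∀ t, y (a, .neg t) = -y (a, t)) ∧
    (∀ t u, y (a, .mul t u) = y (a, t) * y (a, u)) ∧ (∀ c t, y (a, .tr c t) = y (a * c, t)) ∧
    ∀ (t : Tm G) (k : ℕ), y (a, t) ≤ E t + 1 / (k + 1) +
      M k * ∑ s ∈ S, (y (a * s, .wit t k s) - y (a, .wit t k s))

variable (S : Finset G) (M : ℕ → ℝ) (E : Tm G → ℝ)

lemma isClosed_good : IsClosed {y | Good S M E y} := by
  simp only [Good, setOf_forall, setOf_and]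
  refine isClosed_iInter fun a => (isClosed_iInter fun t => ?_).inter (IsClosed.inter ?_
    ((isClosed_iInter fun t => ?_).inter ((isClosed_iInter fun t => isClosed_iInter fun u => ?_).inter
    ((isClosed_iInter fun t => isClosed_iInter fun u => ?_).inter
    (isClosed_iInter fun t => isClosed_iInter fun u => ?_)))))
  · exact isClosed_le (by fun_prop) (by fun_prop)
  · exact isClosed_eq (by fun_prop) (by fun_prop)
  · exact isClosed_eq (by fun_prop) (by fun_prop)
  · exact isClosed_eq (by fun_prop) (by fun_prop)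
  · exact isClosed_eq (by fun_prop) (by fun_prop)
  · exact isClosed_le (by fun_prop) (by fun_prop)

/-- The model space. -/
abbrev XX : Type := {y : G × Tm G → ℝ // Good S M E y}

instance : CompactSpace (XX S M E) :=
  isCompact_iff_compactSpace.1 ((isCompact_univ_pi fun _ => isCompact_Icc (a := (-1 : ℝ))
    (b := 1)).of_isClosed_subset (isClosed_good S M E) fun y hy p _ => abs_le.1 ((hy p.1).1 p.2))

instance : MulAction G (XX S M E) where
  smul g y := ⟨fun p => y.1 (g⁻¹ * p.1, p.2), fun a => by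
    simpa only [mul_assoc] using y.2 (g⁻¹ * a)⟩
  one_smul y := Subtype.ext (funext fun p => by
    change y.1 (1⁻¹ * p.1, p.2) = y.1 p
    simp)
  mul_smul g h y := Subtype.ext (funext fun p => by
    change y.1 ((g * h)⁻¹ * p.1, p.2) = y.1 (h⁻¹ * (g⁻¹ * p.1), p.2)
    simp [mul_assoc])

lemma smul_val (g : G) (y : XX S M E) (p : G × Tm G) :
    (g • y).1 p = y.1 (g⁻¹ * p.1, p.2) := rfl

lemma continuous_coord (p : G × Tm G) : Continuous fun y : XX S M E => y.1 p :=
  (continuous_apply p).comp continuous_subtype_val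

lemma continuous_act (g : G) : Continuous fun y : XX S M E => g • y :=
  Continuous.subtype_mk (continuous_pi fun _ => continuous_coord S M E _) _

/-- Coordinate functions. -/
noncomputable def co (t : Tm G) : XX S M E →ᵇ ℝ :=
  BoundedContinuousFunction.mkOfCompact ⟨fun y => y.1 (1, t), continuous_coord S M E _⟩

variable [Countable G]

instance : PolishSpace (XX S M E) := (isClosed_good S M E).polishSpace

lemma integral_co_le (ν : Measure (XX S M E)) [IsProbabilityMeasure ν]
    (hν : ∀ g : G, Measure.map (fun x : XX S M E => g • x) ν = ν) (t : Tm G) :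
    ∫ y, y.1 (1, t) ∂ν ≤ E t := by
  have hi : ∀ p, Integrable (fun y : XX S M E => y.1 p) ν := fun p =>
    Integrable.of_bound (continuous_coord S M E p).aestronglyMeasurable 1
      (Eventually.of_forall fun y => (y.2 p.1).1 p.2)
  have h1 : ∀ a u, ∫ y, y.1 (1 * a, u) ∂ν = ∫ y, y.1 (1, u) ∂ν := fun a u => by
    have := integral_comp_mp (μ := ν) ⟨(continuous_act S M E a⁻¹).measurable, hν a⁻¹⟩
      (continuous_coord S M E (1, u)).measurable
    simpa [smul_val] using this
  have h2 : ∀ k : ℕ, ∫ y, y.1 (1, t) ∂ν ≤ E t + 1 / (k + 1) := fun k => by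
    have hd : ∀ s, Integrable
        (fun x : XX S M E => x.1 (1 * s, .wit t k s) - x.1 (1, .wit t k s)) ν := fun s =>
      (hi _).sub (hi _)
    have hs : Integrable (fun x : XX S M E =>
        M k * ∑ s ∈ S, (x.1 (1 * s, .wit t k s) - x.1 (1, .wit t k s))) ν :=
      (integrable_finsetSum S fun s _ => hd s).const_mul (M k)
    refine (integral_mono (hi _) ((integrable_const _).add hs)
      fun y => (y.2 1).2.2.2.2.2 t k).trans (le_of_eq ?_)
    simp only [Pi.add_apply, Pi.sub_apply]
    rw [integral_add (integrable_const _) hs, integral_const_mul,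
      integral_finsetSum _ fun s _ => hd s, Finset.sum_eq_zero]
    · simp
    · intro s _
      rw [integral_sub (hi _) (hi _), h1, sub_self]
  have h3 : Tendsto (fun k : ℕ => E t + 1 / ((k : ℝ) + 1)) atTop (𝓝 (E t + 0)) :=
    tendsto_one_div_add_atTop_nhds_zero_nat.const_add _
  rw [add_zero] at h3
  exact ge_of_tendsto' h3 h2

lemma unique_inv (hE : ∀ t, E (.neg t) = -E t) (ν ν' : Measure (XX S M E))
    [IsProbabilityMeasure ν] [IsProbabilityMeasure ν']
    (hν : ∀ g : G, Measure.map (fun x : XX S M E => g • x) ν = ν)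
    (hν' : ∀ g : G, Measure.map (fun x : XX S M E => g • x) ν' = ν') : ν' = ν := by
  have h1 : ∀ (m : Measure (XX S M E)) [IsProbabilityMeasure m],
      (∀ g : G, Measure.map (fun x : XX S M E => g • x) m = m) →
      ∀ t, ∫ y, co S M E t y ∂m = E t := fun m _ hm t => by
    refine le_antisymm (integral_co_le S M E m hm t) ?_
    have := integral_co_le S M E m hm (.neg t)
    simp only [fun y : XX S M E => (y.2 1).2.2.1 t, integral_neg, hE] at this
    exact neg_le_neg_iff.1 this
  have h2 : Subalgebra.toSubmodule (Algebra.adjoin ℝ (range (co S M E))) =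
      Submodule.span ℝ (range (co S M E)) := by
    apply Algebra.adjoin_eq_span_of_subset
    refine Subset.trans (fun f hf => ?_) Submodule.subset_span
    induction hf using Submonoid.closure_induction with
    | mem x hx => exact hx
    | one => exact ⟨.one, by ext y; exact (y.2 1).2.1⟩
    | mul x y _ _ hx hy =>
      obtain ⟨t, rfl⟩ := hx
      obtain ⟨u, rfl⟩ := hy
      exact ⟨.mul t u, by ext y; exact (y.2 1).2.2.2.1 t u⟩
  let A : StarSubalgebra ℝ (XX S M E →ᵇ ℝ) :=
    { Algebra.adjoin ℝ (range (co S M E)) with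
      star_mem' := fun {f} hf => by
        have : star f = f := by ext y; simp
        rwa [this] }
  refine ext_of_forall_mem_subalgebra_integral_eq_of_polish (A := A) (fun x y hxy => ?_)
    fun f hf => ?_
  · obtain ⟨⟨a, t⟩, hp⟩ := Function.ne_iff.1 (Subtype.coe_ne_coe.2 hxy)
    refine ⟨_, ⟨_, ⟨co S M E (.tr a t), Algebra.subset_adjoin (mem_range_self _), rfl⟩, rfl⟩, ?_⟩
    change x.1 (1, .tr a t) ≠ y.1 (1, .tr a t)
    rwa [(x.2 1).2.2.2.2.1, (y.2 1).2.2.2.2.1, one_mul]
  · have hf' : f ∈ Submodule.span ℝ (range (co S M E)) := by rw [← h2]; exact hf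
    clear hf
    induction hf' using Submodule.span_induction with
    | mem x hx =>
      obtain ⟨t, rfl⟩ := hx
      rw [h1 ν hν, h1 ν' hν']
    | zero => simp
    | add x y _ _ hx hy =>
      simp only [BoundedContinuousFunction.coe_add, Pi.add_apply]
      rw [integral_add (x.integrable _) (y.integrable _),
        integral_add (x.integrable _) (y.integrable _), hx, hy]
    | smul c x _ hx =>
      simp only [BoundedContinuousFunction.coe_smul, smul_eq_mul]
      rw [integral_const_mul, integral_const_mul, hx]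

variable [MeasurableSpace Ω] [StandardBorelSpace Ω] [MulAction G Ω]

theorem model_of_wit (μ : Measure Ω) [IsProbabilityMeasure μ]
    (hmp : ∀ g : G, MeasurePreserving (fun ω : Ω => g • ω) μ μ)
    (W : (Ω → ℝ) → ℕ → G → Ω → ℝ)
    (hW : ∀ (f : Ω → ℝ) (k : ℕ), Measurable f → (∀ ω, |f ω| ≤ 1) →
      (∀ s, Measurable (W f k s)) ∧ (∀ s ω, |W f k s ω| ≤ 1) ∧
      ∀ᵐ ω ∂μ, f ω ≤ ∫ x, f x ∂μ + 1 / (k + 1) +
        M k * ∑ s ∈ S, (W f k s (s⁻¹ • ω) - W f k s ω))
    (b : ℕ → Ω → ℝ) (hb : ∀ n, Measurable (b n)) (hb1 : ∀ n ω, |b n ω| ≤ 1)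
    (hb0 : Injective (b 0)) : HasUEModel G μ b := by
  classical
  have hev : ∀ t, Measurable (ev b W t) ∧ ∀ ω, |ev b W t ω| ≤ 1 := by
    intro t
    induction t with
    | base n => exact ⟨hb n, hb1 n⟩
    | one => exact ⟨measurable_const, fun _ => by simp [ev]⟩
    | neg t ih => exact ⟨ih.1.neg, fun ω => by simpa [ev] using ih.2 ω⟩
    | mul t u ih ih' =>
      refine ⟨ih.1.mul ih'.1, fun ω => ?_⟩
      simp only [ev, abs_mul]
      exact mul_le_one₀ (ih.2 ω) (abs_nonneg _) (ih'.2 ω)
    | tr a t ih => exact ⟨ih.1.comp (hmp a⁻¹).measurable, fun ω => ih.2 _⟩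
    | wit t k s ih => exact ⟨(hW _ k ih.1 ih.2).1 s, (hW _ k ih.1 ih.2).2.1 s⟩
  let E : Tm G → ℝ := fun t => ∫ x, ev b W t x ∂μ
  let Φ : Ω → G × Tm G → ℝ := fun ω p => ev b W p.2 (p.1⁻¹ • ω)
  have hΦ : Measurable Φ := measurable_pi_lambda _ fun p => (hev p.2).1.comp (hmp _).measurable
  have hgood : ∀ᵐ ω ∂μ, Good S M E (Φ ω) := by
    have : ∀ᵐ ω ∂μ, ∀ (a : G) (t : Tm G) (k : ℕ), Φ ω (a, t) ≤ E t + 1 / (k + 1) +
        M k * ∑ s ∈ S, (Φ ω (a * s, .wit t k s) - Φ ω (a, .wit t k s)) := by
      simp only [ae_all_iff]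
      intro a t k
      have := (hmp a⁻¹).quasiMeasurePreserving.ae (hW _ k (hev t).1 (hev t).2).2.2
      simpa only [Φ, E, ev, mul_inv_rev, mul_smul] using this
    filter_upwards [this] with ω hω a
    exact ⟨fun t => (hev t).2 _, rfl, fun _ => rfl, fun _ _ => rfl,
      fun c t => by simp only [Φ, ev, mul_inv_rev, mul_smul], hω a⟩
  obtain ⟨ω₀, hω₀⟩ := hgood.exists
  have : Nonempty Ω := ⟨ω₀⟩
  have hm : MeasurableSet {ω | Good S M E (Φ ω)} := hΦ (isClosed_good S M E).measurableSet
  let φ : Ω → XX S M E := fun ω => ⟨if Good S M E (Φ ω) then Φ ω else Φ ω₀, by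
    split_ifs with h
    · exact h
    · exact hω₀⟩
  have hφ : Measurable φ := (Measurable.ite hm hΦ measurable_const).subtype_mk
  have hφv : ∀ᵐ ω ∂μ, (φ ω).1 = Φ ω := hgood.mono fun ω hω => if_pos hω
  have he : MeasurableEmbedding (b 0) := (hb 0).measurableEmbedding hb0
  let ψ : XX S M E → Ω := fun y => he.invFun (y.1 (1, .base 0))
  have hψ : Measurable ψ := he.measurable_invFun.comp (continuous_coord S M E _).measurable
  have heq : ∀ g : G, ∀ᵐ ω ∂μ, φ (g • ω) = g • φ ω := fun g => by
    filter_upwards [hφv, (hmp g).quasiMeasurePreserving.ae hφv] with ω h1 h2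
    refine Subtype.ext (funext fun p => ?_)
    rw [smul_val, h1, h2]
    simp only [Φ, mul_inv_rev, inv_inv, mul_smul]
  have hl : ∀ᵐ ω ∂μ, ψ (φ ω) = ω := hφv.mono fun ω hω => by
    simp only [ψ, hω, Φ, ev, inv_one, one_smul]
    exact he.leftInverse_invFun ω
  have hP : IsProbabilityMeasure (μ.map φ) := Measure.isProbabilityMeasure_map hφ.aemeasurable
  have hinv : ∀ g : G, Measure.map (fun x : XX S M E => g • x) (μ.map φ) = μ.map φ := fun g => by
    rw [Measure.map_map (continuous_act S M E g).measurable hφ]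
    nth_rewrite 2 [← (hmp g).map_eq]
    rw [Measure.map_map hφ (hmp g).measurable]
    exact Measure.map_congr ((heq g).mono fun ω hω => hω.symm)
  refine ⟨XX S M E, inferInstance, inferInstance, inferInstance, inferInstance, inferInstance,
    inferInstance, continuous_act S M E, μ.map φ, hP, hinv, fun ν' _ hν' =>
      unique_inv S M E (fun t => by simp only [E, ev, integral_neg]) _ ν' hinv hν',
    φ, ψ, hφ, hψ, rfl, heq, hl, ?_, fun n => ⟨fun y => y.1 (1, .base n),
      continuous_coord S M E _, hφv.mono fun ω hω => ?_⟩⟩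
  · exact (ae_map_iff hφ.aemeasurable (measurableSet_eq_fun (hφ.comp hψ) measurable_id)).2
      (hl.mono fun ω hω => congrArg φ hω)
  · simp only [hω, Φ, ev, inv_one, one_smul]

theorem model_of_gap (μ : Measure Ω) [IsProbabilityMeasure μ]
    (hmp : ∀ g : G, MeasurePreserving (fun ω : Ω => g • ω) μ μ) (hgap : SpectralGap G μ)
    (f : ℕ → Ω → ℝ) (hf : ∀ n, BddMeas (f n)) : HasUEModel G μ f := by
  obtain ⟨S, C, hgap⟩ := hgap
  let M : ℕ → ℝ := fun k => (4 / (1 / (k + 1)) + 2) * |C| + 1
  have hex : ∀ (u : Ω → ℝ) (k : ℕ), Measurable u → (∀ ω, |u ω| ≤ 1) →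
      ∃ h : G → Ω → ℝ, (∀ s, Measurable (h s)) ∧ (∀ s ω, |h s ω| ≤ 1) ∧
      ∀ᵐ ω ∂μ, u ω ≤ ∫ x, u x ∂μ + 1 / (k + 1) + M k * ∑ s ∈ S, (h s (s⁻¹ • ω) - h s ω) := by
    intro u k hu hu1
    have hub : BddMeas u := ⟨hu, 1, hu1⟩
    have hg := hub.sub (BddMeas.const (∫ x, u x ∂μ))
    have hI : |∫ x, u x ∂μ| ≤ 1 := by
      have := norm_integral_le_of_norm_le_const (μ := μ) (f := u) (C := 1)
        (Eventually.of_forall hu1)
      simpa using this
    obtain ⟨h, h1, h2, h3⟩ := exists_wit μ hmp S (M := M k) (ε := 1 / (k + 1)) (by positivity) hg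
      fun p hp hp0 => density_le μ hmp hgap (by positivity) hg
        (fun ω => (abs_sub _ _).trans (by linarith [hu1 ω]))
        (by rw [integral_sub (hub.integrable μ) (integrable_const _)]; simp) hp hp0
    exact ⟨h, h1, h2, h3.mono fun ω hω => by linarith⟩
  choose! W hW using hex
  choose B hB using fun n => (hf n).2
  have hπ : ∀ x : ℝ, |Real.arctan x / 2| ≤ 1 := fun x => by
    have h1 := Real.arctan_lt_pi_div_two x
    have h2 := Real.neg_pi_div_two_lt_arctan x
    have h3 := Real.pi_le_four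
    exact abs_le.2 ⟨by linarith, by linarith⟩
  have hpos : ∀ n, 0 < |B n| + 1 := fun n => by positivity
  let b : ℕ → Ω → ℝ := fun n => Nat.casesOn n (fun ω => Real.arctan (embeddingReal Ω ω) / 2)
    fun n ω => f n ω / (|B n| + 1)
  obtain ⟨X, i1, i2, i3, a1, a2, a3, a4, ν, a5, a6, a7, φ, ψ, a8, a9, a10, a11, a12, a13, a14⟩ :=
    model_of_wit S M μ hmp W hW b
      (fun n => by
        cases n with
        | zero => exact (Real.continuous_arctan.measurable.comp
            (measurable_embeddingReal Ω)).div_const 2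
        | succ n => exact (hf n).1.div_const _)
      (fun n ω => by
        cases n with
        | zero => exact hπ _
        | succ n =>
          simp only [b]
          rw [abs_div, abs_of_pos (hpos n), div_le_one (hpos n)]
          linarith [hB n ω, le_abs_self (B n)])
      (fun x y hxy => (measurableEmbedding_embeddingReal Ω).injective
        (Real.arctan_injective (by
          change Real.arctan _ / 2 = Real.arctan _ / 2 at hxy
          linarith)))
  refine ⟨X, i1, i2, i3, a1, a2, a3, a4, ν, a5, a6, a7, φ, ψ, a8, a9, a10, a11, a12, a13,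
    fun n => ?_⟩
  obtain ⟨h, h1, h2⟩ := a14 (n + 1)
  refine ⟨fun x => (|B n| + 1) * h x, by fun_prop, h2.mono fun ω hω => ?_⟩
  simp only [hω, b]
  field_simp [(hpos n).ne']

end Pool.Agent.P.MP_11b517_an.Gap
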