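import Pool.Agent.P.MP_11b517_an.Gap.Defs

/-! Spectral gap gives bounded coboundary witnesses. -/

set_option autoImplicit false

open MeasureTheory Set Filter
open scoped ENNReal

namespace Pool.Agent.P.MP_11b517_an.Gap

variable {G Ω : Type} [MeasurableSpace Ω]

namespace BddMeas

lemma const (c : ℝ) : BddMeas (fun _ : Ω => c) := ⟨measurable_const, |c|, fun _ => le_rfl⟩

lemma add {f g : Ω → ℝ} (hf : BddMeas f) (hg : BddMeas g) : BddMeas (fun ω => f ω + g ω) := by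
  obtain ⟨h1, B, hB⟩ := hf
  obtain ⟨h2, C, hC⟩ := hg
  exact ⟨h1.add h2, B + C, fun ω => (abs_add_le _ _).trans (add_le_add (hB ω) (hC ω))⟩

lemma mul {f g : Ω → ℝ} (hf : BddMeas f) (hg : BddMeas g) : BddMeas (fun ω => f ω * g ω) := by
  obtain ⟨h1, B, hB⟩ := hf
  obtain ⟨h2, C, hC⟩ := hg
  refine ⟨h1.mul h2, B * C, fun ω => ?_⟩
  rw [abs_mul]
  exact mul_le_mul (hB ω) (hC ω) (abs_nonneg _) ((abs_nonneg _).trans (hB ω))

lemma sub {f g : Ω → ℝ} (hf : BddMeas f) (hg : BddMeas g) : BddMeas (fun ω => f ω - g ω) := by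
  have := hf.add ((const (-1)).mul hg)
  simpa [sub_eq_add_neg] using this

lemma sq {f : Ω → ℝ} (hf : BddMeas f) : BddMeas (fun ω => f ω ^ 2) := by
  simpa [_root_.sq] using hf.mul hf

lemma abs {f : Ω → ℝ} (hf : BddMeas f) : BddMeas (fun ω => |f ω|) := by
  obtain ⟨h1, B, hB⟩ := hf
  exact ⟨by fun_prop, B, fun ω => by rw [abs_abs]; exact hB ω⟩

lemma sqrt {f : Ω → ℝ} (hf : BddMeas f) : BddMeas (fun ω => √(f ω)) := by
  obtain ⟨h1, B, hB⟩ := hf
  refine ⟨by fun_prop, √B, fun ω => ?_⟩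
  rw [abs_of_nonneg (Real.sqrt_nonneg _)]
  exact Real.sqrt_le_sqrt ((le_abs_self _).trans (hB ω))

lemma comp {f : Ω → ℝ} (hf : BddMeas f) {T : Ω → Ω} (hT : Measurable T) :
    BddMeas (fun ω => f (T ω)) := by
  obtain ⟨h1, B, hB⟩ := hf
  exact ⟨h1.comp hT, B, fun ω => hB _⟩

lemma memLp {f : Ω → ℝ} (hf : BddMeas f) (p : ℝ≥0∞) (μ : Measure Ω) [IsFiniteMeasure μ] :
    MemLp f p μ := by
  obtain ⟨h1, B, hB⟩ := hf
  exact MemLp.of_bound h1.aestronglyMeasurable B (Eventually.of_forall hB)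

lemma integrable {f : Ω → ℝ} (hf : BddMeas f) (μ : Measure Ω) [IsFiniteMeasure μ] :
    Integrable f μ := memLp_one_iff_integrable.1 (hf.memLp 1 μ)

end BddMeas

lemma integral_comp_mp {μ : Measure Ω} {T : Ω → Ω} (hT : MeasurePreserving T μ μ) {f : Ω → ℝ}
    (hf : Measurable f) : ∫ ω, f (T ω) ∂μ = ∫ ω, f ω ∂μ := by
  rw [← integral_map hT.measurable.aemeasurable hf.aestronglyMeasurable, hT.map_eq]

lemma sqrt_sub_sq_le {a b : ℝ} (ha : 0 ≤ a) (hb : 0 ≤ b) : (√a - √b) ^ 2 ≤ |a - b| := by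
  have h1 := Real.sq_sqrt ha
  have h2 := Real.sq_sqrt hb
  have h3 := Real.sqrt_nonneg a
  have h4 := Real.sqrt_nonneg b
  rcases le_total (√a) (√b) with h | h
  · refine le_trans ?_ (neg_le_abs _)
    nlinarith [mul_nonneg h3 (sub_nonneg.2 h)]
  · refine le_trans ?_ (le_abs_self _)
    nlinarith [mul_nonneg h4 (sub_nonneg.2 h)]

/-- Representation of a functional dominated by the `L¹` norm. -/
lemma exists_rep (μ : Measure Ω) [IsProbabilityMeasure μ] (l : Lp ℝ 2 μ →ₗ[ℝ] ℝ) {M : ℝ}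
    (hM : 0 < M) (hl : ∀ x, l x ≤ M * ∫ ω, |x ω| ∂μ) :
    ∃ h : Ω → ℝ, Measurable h ∧ (∀ ω, |h ω| ≤ 1) ∧ ∀ x, l x = M * ∫ ω, h ω * x ω ∂μ := by
  have hneg : ∀ x : Lp ℝ 2 μ, ∫ ω, |(-x) ω| ∂μ = ∫ ω, |x ω| ∂μ := fun x =>
    integral_congr_ae ((Lp.coeFn_neg x).mono fun ω hω => by simp only [hω, Pi.neg_apply, abs_neg])
  have habs : ∀ x, |l x| ≤ M * ∫ ω, |x ω| ∂μ := fun x => by
    refine abs_le.2 ⟨?_, hl x⟩
    have := hl (-x)
    rw [hneg, map_neg] at this
    linarith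
  have hnorm : ∀ x : Lp ℝ 2 μ, ∫ ω, |x ω| ∂μ ≤ ‖x‖ := fun x => by
    have := integral_norm_eq_lintegral_enorm (μ := μ) (Lp.aestronglyMeasurable x)
    simp only [Real.norm_eq_abs] at this
    rw [this, ← eLpNorm_one_eq_lintegral_enorm, Lp.norm_def]
    exact ENNReal.toReal_mono (Lp.eLpNorm_ne_top x)
      (eLpNorm_le_eLpNorm_of_exponent_le (by norm_num) (Lp.aestronglyMeasurable x))
  let L : StrongDual ℝ (Lp ℝ 2 μ) := l.mkContinuous M fun x =>
    (habs x).trans (mul_le_mul_of_nonneg_left (hnorm x) hM.le)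
  let k : Lp ℝ 2 μ := (InnerProductSpace.toDual ℝ (Lp ℝ 2 μ)).symm L
  have hk : ∀ x, inner ℝ k x = l x := fun x => InnerProductSpace.toDual_symm_apply
  have hki : Integrable k μ := (Lp.memLp k).integrable (by norm_num)
  have hA : ∀ A, MeasurableSet A → |∫ ω in A, k ω ∂μ| ≤ ∫ _ in A, M ∂μ := fun A hA => by
    have h1 := L2.inner_indicatorConstLp_one (𝕜 := ℝ) hA (measure_ne_top μ A) k
    rw [← h1, real_inner_comm, hk]
    refine (habs _).trans (le_of_eq ?_)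
    have h2 : ∫ ω, |(indicatorConstLp 2 hA (measure_ne_top μ A) (1 : ℝ)) ω| ∂μ =
        ∫ ω, A.indicator (fun _ => (1 : ℝ)) ω ∂μ :=
      integral_congr_ae ((indicatorConstLp_coeFn (p := 2) (hs := hA)
        (hμs := measure_ne_top μ A) (c := (1 : ℝ))).mono fun ω hω => by
        simp only [hω, indicator]; split_ifs <;> simp)
    rw [h2, integral_indicator hA]
    simp [mul_comm]
  have h1 : k ≤ᵐ[μ] fun _ => M := ae_le_of_forall_setIntegral_le hki (integrable_const _)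
    fun A hA' _ => (abs_le.1 (hA A hA')).2
  have h2 : (fun _ => -M) ≤ᵐ[μ] k := ae_le_of_forall_setIntegral_le (integrable_const _) hki
    fun A hA' _ => by rw [integral_neg]; exact (abs_le.1 (hA A hA')).1
  have hkm : Measurable k := (Lp.stronglyMeasurable k).measurable
  refine ⟨fun ω => max (-1) (min 1 (k ω / M)), by fun_prop,
    fun ω => abs_le.2 ⟨le_max_left _ _, max_le (by norm_num) (min_le_left _ _)⟩, fun x => ?_⟩
  rw [← hk, L2.inner_def, ← integral_const_mul]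
  refine integral_congr_ae ?_
  filter_upwards [h1, h2] with ω a1 a2
  rw [min_eq_right ((div_le_one hM).2 a1), max_eq_right ((le_div_iff₀ hM).2 (by linarith))]
  simp only [RCLike.inner_apply, conj_trivial]
  field_simp

variable [Group G] [MulAction G Ω]

/-- The gap inequality for densities. -/
lemma density_le (μ : Measure Ω) [IsProbabilityMeasure μ]
    (hmp : ∀ g : G, MeasurePreserving (fun ω : Ω => g • ω) μ μ) {S : Finset G} {C : ℝ}
    (hgap : ∀ u : Ω → ℝ, BddMeas u →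
      ∫ ω, (u ω - ∫ x, u x ∂μ) ^ 2 ∂μ ≤ C * ∑ s ∈ S, ∫ ω, (u (s • ω) - u ω) ^ 2 ∂μ)
    {ε : ℝ} (hε : 0 < ε) {g p : Ω → ℝ} (hg : BddMeas g) (hg2 : ∀ ω, |g ω| ≤ 2)
    (hg0 : ∫ ω, g ω ∂μ = 0) (hp : BddMeas p) (hp0 : ∀ ω, 0 ≤ p ω) :
    ∫ ω, (g ω - ε) * p ω ∂μ ≤
      ((4 / ε + 2) * |C| + 1) * ∑ s ∈ S, ∫ ω, |p (s • ω) - p ω| ∂μ := by
  have hq := hp.sqrt
  set c := ∫ x, √(p x) ∂μ with hc
  have he := (hq.sub (BddMeas.const c)).sq
  set E := ∫ ω, (√(p ω) - c) ^ 2 ∂μ with hE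
  set D := ∑ s ∈ S, ∫ ω, |p (s • ω) - p ω| ∂μ with hD
  have hD0 : 0 ≤ D := Finset.sum_nonneg fun s _ => integral_nonneg fun ω => abs_nonneg _
  have hE0 : 0 ≤ E := integral_nonneg fun ω => sq_nonneg _
  have h1 : E ≤ |C| * D := by
    refine (hgap _ hq).trans ((mul_le_mul_of_nonneg_right (le_abs_self C)
      (Finset.sum_nonneg fun s _ => integral_nonneg fun ω => sq_nonneg _)).trans ?_)
    refine mul_le_mul_of_nonneg_left (Finset.sum_le_sum fun s _ => ?_) (abs_nonneg C)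
    exact integral_mono (((hq.comp (hmp s).measurable).sub hq).sq.integrable μ)
      (((hp.comp (hmp s).measurable).sub hp).abs.integrable μ)
      fun ω => sqrt_sub_sq_le (hp0 _) (hp0 _)
  have h2 : E = ∫ ω, p ω ∂μ - c ^ 2 := by
    have : ∀ ω, (√(p ω) - c) ^ 2 = p ω - 2 * c * √(p ω) + c ^ 2 := fun ω => by
      have := Real.sq_sqrt (hp0 ω)
      linear_combination this
    simp only [hE, this]
    rw [integral_add ((hp.sub ((BddMeas.const _).mul hq)).integrable μ) (integrable_const _),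
      integral_sub (hp.integrable μ) (((BddMeas.const _).mul hq).integrable μ),
      integral_const_mul, ← hc]
    simp
    ring
  have h3 : ∫ ω, (g ω - ε) * p ω ∂μ ≤
      ∫ ω, (c ^ 2 * g ω + ε * c ^ 2 + (4 / ε + 2) * (√(p ω) - c) ^ 2 - ε * p ω) ∂μ := by
    refine integral_mono (((hg.sub (BddMeas.const _)).mul hp).integrable μ)
      ((((((BddMeas.const _).mul hg).add (BddMeas.const _)).add
        ((BddMeas.const _).mul he)).sub ((BddMeas.const _).mul hp)).integrable μ) fun ω => ?_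
    have a1 := Real.sq_sqrt (hp0 ω)
    obtain ⟨a2, a3⟩ := abs_le.1 (hg2 ω)
    set e := √(p ω) - c with he'
    have a4 : p ω = c ^ 2 + 2 * c * e + e ^ 2 := by rw [← a1, he']; ring
    have a5 : ∀ t : ℝ, |t| ≤ 2 → 2 * t * c * e ≤ ε * c ^ 2 + 4 / ε * e ^ 2 := fun t ht => by
      have b1 : t ^ 2 ≤ 4 := by nlinarith [abs_le.1 ht]
      have b2 : 0 ≤ (ε * c - t * e) ^ 2 / ε := by positivity
      have b3 : (ε * c - t * e) ^ 2 / ε = ε * c ^ 2 - 2 * t * c * e + t ^ 2 / ε * e ^ 2 := by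
        field_simp; ring
      have b4 : t ^ 2 / ε * e ^ 2 ≤ 4 / ε * e ^ 2 := by gcongr
      linarith
    have a6 := a5 _ (hg2 ω)
    have a7 : g ω * e ^ 2 ≤ 2 * e ^ 2 := by gcongr
    simp only
    rw [a4]
    nlinarith
  rw [integral_sub (((((BddMeas.const _).mul hg).add (BddMeas.const _)).add
        ((BddMeas.const _).mul he)).integrable μ) (((BddMeas.const _).mul hp).integrable μ),
    integral_add ((((BddMeas.const _).mul hg).add (BddMeas.const _)).integrable μ)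
      (((BddMeas.const _).mul he).integrable μ),
    integral_add (((BddMeas.const _).mul hg).integrable μ) (integrable_const _),
    integral_const_mul, integral_const_mul, integral_const_mul, integral_const_mul, hg0,
    ← hE] at h3
  simp only [mul_zero, integral_const, probReal_univ, smul_eq_mul, one_mul, zero_add] at h3
  have h4 : (4 / ε + 2) * E ≤ (4 / ε + 2) * (|C| * D) := by gcongr
  have h5 : ε * c ^ 2 ≤ ε * ∫ ω, p ω ∂μ := by gcongr; linarith
  nlinarith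

/-- Bounded coboundary witnesses. -/
theorem exists_wit (μ : Measure Ω) [IsProbabilityMeasure μ]
    (hmp : ∀ g : G, MeasurePreserving (fun ω : Ω => g • ω) μ μ) (S : Finset G) {M ε : ℝ}
    (hM : 0 < M) {g : Ω → ℝ} (hg : BddMeas g)
    (H : ∀ p : Ω → ℝ, BddMeas p → (∀ ω, 0 ≤ p ω) →
      ∫ ω, (g ω - ε) * p ω ∂μ ≤ M * ∑ s ∈ S, ∫ ω, |p (s • ω) - p ω| ∂μ) :
    ∃ h : G → Ω → ℝ, (∀ s, Measurable (h s)) ∧ (∀ s ω, |h s ω| ≤ 1) ∧
      ∀ᵐ ω ∂μ, g ω ≤ ε + M * ∑ s ∈ S, (h s (s⁻¹ • ω) - h s ω) := by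
  classical
  let P := {p : Ω → ℝ // BddMeas p ∧ ∀ ω, 0 ≤ p ω}
  let z : P := ⟨fun _ => 0, BddMeas.const 0, fun _ => le_rfl⟩
  have : Nonempty P := ⟨z⟩
  have hgε := hg.sub (BddMeas.const ε)
  have hd : ∀ (p : P) (s : G), BddMeas fun ω => p.1 (s • ω) - p.1 ω := fun p s =>
    (p.2.1.comp (hmp s).measurable).sub p.2.1
  have hi : ∀ x : Lp ℝ 2 μ, Integrable x μ := fun x => (Lp.memLp x).integrable (by norm_num)
  have hi2 : ∀ (x : Lp ℝ 2 μ) (p : P) (s : G),
      Integrable (fun ω => |x ω + (p.1 (s • ω) - p.1 ω)|) μ := fun x p s =>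
    ((hi x).add ((hd p s).integrable μ)).abs
  let F : (G → Lp ℝ 2 μ) → P → ℝ := fun x p =>
    M * ∑ s ∈ S, ∫ ω, |x s ω + (p.1 (s • ω) - p.1 ω)| ∂μ - ∫ ω, (g ω - ε) * p.1 ω ∂μ
  have hlow : ∀ x p, -(M * ∑ s ∈ S, ∫ ω, |x s ω| ∂μ) ≤ F x p := fun x p => by
    have h1 := H p.1 p.2.1 p.2.2
    have h2 : ∑ s ∈ S, ∫ ω, |p.1 (s • ω) - p.1 ω| ∂μ ≤
        ∑ s ∈ S, ∫ ω, |x s ω + (p.1 (s • ω) - p.1 ω)| ∂μ + ∑ s ∈ S, ∫ ω, |x s ω| ∂μ := by
      rw [← Finset.sum_add_distrib]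
      refine Finset.sum_le_sum fun s _ => ?_
      rw [← integral_add (hi2 _ p s) (hi _).abs]
      refine integral_mono ((hd p s).abs.integrable μ) ((hi2 _ p s).add (hi _).abs) fun ω => ?_
      have := abs_sub (x s ω + (p.1 (s • ω) - p.1 ω)) (x s ω)
      simpa using this
    have h3 := mul_le_mul_of_nonneg_left h2 hM.le
    simp only [F]
    linarith
  have hb : ∀ x, BddBelow (range (F x)) := fun x => ⟨_, forall_mem_range.2 (hlow x)⟩
  let N : (G → Lp ℝ 2 μ) → ℝ := fun x => ⨅ p, F x p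
  have hN1 : ∀ c : ℝ, 0 < c → ∀ x, N (c • x) ≤ c * N x := fun c hc x => by
    rw [← div_le_iff₀' hc]
    refine le_ciInf fun p => ?_
    rw [div_le_iff₀' hc]
    refine ciInf_le_of_le (hb _) ⟨fun ω => c * p.1 ω, (BddMeas.const c).mul p.2.1,
      fun ω => mul_nonneg hc.le (p.2.2 ω)⟩ (le_of_eq ?_)
    have e1 : ∀ s, ∫ ω, |(c • x) s ω + (c * p.1 (s • ω) - c * p.1 ω)| ∂μ =
        c * ∫ ω, |x s ω + (p.1 (s • ω) - p.1 ω)| ∂μ := fun s => by
      rw [← integral_const_mul]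
      refine integral_congr_ae ((Lp.coeFn_smul c (x s)).mono fun ω hω => ?_)
      simp only [Pi.smul_apply, hω, smul_eq_mul]
      rw [← mul_sub, ← mul_add, abs_mul, abs_of_pos hc]
    have e2 : ∫ ω, (g ω - ε) * (c * p.1 ω) ∂μ = c * ∫ ω, (g ω - ε) * p.1 ω ∂μ := by
      rw [← integral_const_mul]; congr 1; funext ω; ring
    simp only [F, e1, e2, ← Finset.mul_sum]
    ring
  have hN2 : ∀ c : ℝ, 0 < c → ∀ x, N (c • x) = c * N x := fun c hc x => by
    refine le_antisymm (hN1 c hc x) ?_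
    have := hN1 c⁻¹ (inv_pos.2 hc) (c • x)
    rwa [inv_smul_smul₀ hc.ne', le_inv_mul_iff₀ hc] at this
  have hN3 : ∀ x y, N (x + y) ≤ N x + N y := fun x y => by
    refine le_ciInf_add_ciInf fun p q => ciInf_le_of_le (hb _)
      ⟨fun ω => p.1 ω + q.1 ω, p.2.1.add q.2.1, fun ω => add_nonneg (p.2.2 ω) (q.2.2 ω)⟩ ?_
    have e1 : ∑ s ∈ S, ∫ ω, |(x + y) s ω +
          (p.1 (s • ω) + q.1 (s • ω) - (p.1 ω + q.1 ω))| ∂μ ≤
        ∑ s ∈ S, ∫ ω, |x s ω + (p.1 (s • ω) - p.1 ω)| ∂μ +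
          ∑ s ∈ S, ∫ ω, |y s ω + (q.1 (s • ω) - q.1 ω)| ∂μ := by
      rw [← Finset.sum_add_distrib]
      refine Finset.sum_le_sum fun s _ => ?_
      rw [← integral_add (hi2 _ p s) (hi2 _ q s)]
      refine integral_mono_of_nonneg (Eventually.of_forall fun ω => abs_nonneg _)
        ((hi2 _ p s).add (hi2 _ q s)) ((Lp.coeFn_add (x s) (y s)).mono fun ω hω => ?_)
      simp only [Pi.add_apply, hω]
      refine le_trans (le_of_eq ?_) (abs_add_le _ _)
      congr 1; ring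
    have e2 : ∫ ω, (g ω - ε) * (p.1 ω + q.1 ω) ∂μ =
        ∫ ω, (g ω - ε) * p.1 ω ∂μ + ∫ ω, (g ω - ε) * q.1 ω ∂μ := by
      rw [← integral_add ((hgε.mul p.2.1).integrable μ) ((hgε.mul q.2.1).integrable μ)]
      congr 1; funext ω; ring
    have e3 := mul_le_mul_of_nonneg_left e1 hM.le
    simp only [F, e2]
    linarith
  have h0 : ∀ s : G, ∫ ω, |(0 : Lp ℝ 2 μ) ω| ∂μ = 0 := fun _ => by
    exact integral_eq_zero_of_ae ((Lp.coeFn_zero ℝ 2 μ).mono fun ω hω => by simp [hω])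
  obtain ⟨l, -, hl⟩ := exists_extension_of_le_sublinear
    (⟨⊥, 0⟩ : (G → Lp ℝ 2 μ) →ₗ.[ℝ] ℝ) N hN2 hN3 (by
      rintro ⟨x, hx⟩
      obtain rfl : x = 0 := hx
      refine le_ciInf fun p => le_trans (le_of_eq ?_) (hlow 0 p)
      simp only [Pi.zero_apply, h0 1]
      simp)
  have hrep : ∀ s, s ∈ S → ∃ h : Ω → ℝ, Measurable h ∧ (∀ ω, |h ω| ≤ 1) ∧
      ∀ x, l (Pi.single s x) = M * ∫ ω, h ω * x ω ∂μ := fun s hs => by
    refine exists_rep μ (l ∘ₗ LinearMap.single ℝ (fun _ => Lp ℝ 2 μ) s) hM fun x => ?_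
    refine (hl _).trans (ciInf_le_of_le (hb _) z (le_of_eq ?_))
    simp only [F, z, sub_self, add_zero, mul_zero, integral_zero, sub_zero,
      LinearMap.coe_single]
    rw [Finset.sum_eq_single s (fun t _ ht => by rw [Pi.single_eq_of_ne ht, h0 1])
      (fun h => absurd hs h), Pi.single_eq_same]
  choose! h hh1 hh2 hh3 using hrep
  have hb' : ∀ s ∈ S, BddMeas (h s) := fun s hs => ⟨hh1 s hs, 1, hh2 s hs⟩
  have key : (fun ω => g ω - ε) ≤ᵐ[μ] fun ω => M * ∑ s ∈ S, (h s (s⁻¹ • ω) - h s ω) := by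
    have hI : ∀ s ∈ S, Integrable (fun ω => h s (s⁻¹ • ω) - h s ω) μ := fun s hs =>
      (((hb' s hs).comp (hmp s⁻¹).measurable).sub (hb' s hs)).integrable μ
    refine ae_le_of_forall_setIntegral_le (hgε.integrable μ)
      ((integrable_finsetSum _ hI).const_mul M) fun A hA _ => ?_
    let p : P := ⟨A.indicator 1, ⟨measurable_one.indicator hA, 1, fun ω => by
      simp only [indicator]; split_ifs <;> simp⟩, fun ω => indicator_nonneg (by simp) ω⟩
    have hind : ∀ u : Ω → ℝ, ∫ ω in A, u ω ∂μ = ∫ ω, u ω * p.1 ω ∂μ := fun u => by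
      rw [← integral_indicator hA]
      congr 1; funext ω
      simp only [p, indicator]; split_ifs <;> simp
    let d : G → Lp ℝ 2 μ := fun s => ((hd p s).memLp 2 μ).toLp
    have hdc : ∀ s, d s =ᵐ[μ] fun ω => p.1 (s • ω) - p.1 ω := fun s => MemLp.coeFn_toLp _
    have e1 := (hl (-∑ s ∈ S, Pi.single s (d s))).trans (ciInf_le (hb _) p)
    have e2 : ∀ t ∈ S, ∫ ω, |(-∑ s ∈ S, Pi.single s (d s) : G → Lp ℝ 2 μ) t ω +
        (p.1 (t • ω) - p.1 ω)| ∂μ = 0 := fun t ht => by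
      rw [Pi.neg_apply, Finset.sum_apply, Finset.sum_eq_single t
        (fun s _ hs => Pi.single_eq_of_ne hs.symm _) (fun h => absurd ht h), Pi.single_eq_same]
      refine integral_eq_zero_of_ae ?_
      filter_upwards [Lp.coeFn_neg (d t), hdc t] with ω a1 a2
      rw [a1, Pi.neg_apply, a2]; simp
    simp only [F] at e1
    rw [Finset.sum_eq_zero e2, map_neg, map_sum] at e1
    rw [hind, integral_const_mul, integral_finsetSum _ fun s hs => (hI s hs).integrableOn,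
      Finset.mul_sum]
    refine le_trans (by linarith) (Finset.sum_le_sum (f := fun s => l (Pi.single s (d s)))
      fun s hs => le_of_eq ?_)
    rw [hh3 s hs, hind]
    congr 1
    have e3 : ∫ ω, h s ω * p.1 (s • ω) ∂μ = ∫ ω, h s (s⁻¹ • ω) * p.1 ω ∂μ := by
      rw [← integral_comp_mp (hmp s) (f := fun ω => h s (s⁻¹ • ω) * p.1 ω)
        (((hb' s hs).comp (hmp s⁻¹).measurable).mul p.2.1).1]
      simp
    simp only [sub_mul]
    rw [integral_sub ((((hb' s hs).comp (hmp s⁻¹).measurable).mul p.2.1).integrable μ)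
      (((hb' s hs).mul p.2.1).integrable μ), ← e3, ← integral_sub
      (((hb' s hs).mul (p.2.1.comp (hmp s).measurable)).integrable μ)
      (((hb' s hs).mul p.2.1).integrable μ)]
    refine integral_congr_ae ((hdc s).mono fun ω hω => ?_)
    simp only [hω]; ring
  refine ⟨fun s => if s ∈ S then h s else 0, fun s => ?_, fun s ω => ?_, ?_⟩
  · dsimp only
    split_ifs with hs
    · exact hh1 s hs
    · exact measurable_zero
  · dsimp only
    split_ifs with hs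
    · exact hh2 s hs ω
    · simp
  · filter_upwards [key] with ω hω
    rw [Finset.sum_congr rfl fun s hs => by rw [if_pos hs]]
    linarith

end Pool.Agent.P.MP_11b517_an.Gap
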